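import Mathlib

/-!
# OM, L5: Jensen's formula with a linear count of the zeros
-/

set_option autoImplicit false

open MeasureTheory Complex Real Set

namespace Pool.Agent.Helper16.OM

theorem step_int {r R : ℝ} (hr : 0 < r) (hrR : r ≤ R) :
    IntervalIntegrable (fun t : ℝ => if r < t then t⁻¹ else 0) volume 0 R ∧
      ∫ t in (0 : ℝ)..R, (if r < t then t⁻¹ else 0) = Real.log (R * r⁻¹) := by
  set f : ℝ → ℝ := fun t : ℝ => if r < t then t⁻¹ else 0 with hf
  have e1 : EqOn (fun _ : ℝ => (0 : ℝ)) f (uIoc 0 r) := by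
    intro t ht
    rw [uIoc_of_le hr.le] at ht
    simp only [hf]
    rw [if_neg (not_lt.2 ht.2)]
  have e2 : EqOn (fun t : ℝ => t⁻¹) f (uIoc r R) := by
    intro t ht
    rw [uIoc_of_le hrR] at ht
    simp only [hf]
    rw [if_pos ht.1]
  have j1 : IntervalIntegrable f volume 0 r :=
    (intervalIntegrable_const (c := (0 : ℝ))).congr e1
  have h0 : (0 : ℝ) ∉ uIcc r R := by
    rw [uIcc_of_le hrR]
    intro h
    exact absurd h.1 (not_le.2 hr)
  have j2' : IntervalIntegrable (fun t : ℝ => t⁻¹) volume r R :=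
    intervalIntegral.intervalIntegrable_inv (fun x hx h => h0 (h ▸ hx)) continuousOn_id
  have j2 : IntervalIntegrable f volume r R := j2'.congr e2
  refine ⟨j1.trans j2, ?_⟩
  rw [← intervalIntegral.integral_add_adjacent_intervals j1 j2]
  have k1 : ∫ t in (0 : ℝ)..r, f t = 0 := by
    rw [intervalIntegral.integral_congr_ae (g := fun _ => (0 : ℝ))
      (Filter.Eventually.of_forall fun t ht => (e1 ht).symm)]
    simp
  have k2 : ∫ t in r..R, f t = Real.log (R / r) := by
    rw [intervalIntegral.integral_congr_ae (g := fun t : ℝ => t⁻¹)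
      (Filter.Eventually.of_forall fun t ht => (e2 ht).symm)]
    exact integral_inv h0
  rw [k1, k2, zero_add, div_eq_mul_inv]

theorem sum_log_le {ι : Type} (S : Finset ι) (m r : ι → ℝ) (R c : ℝ) (hR : 0 ≤ R) (hc : 0 ≤ c)
    (hr : ∀ u ∈ S, 0 < r u ∧ r u ≤ R)
    (hcount : ∀ t : ℝ, 0 < t → ∑ u ∈ S.filter (fun u => r u < t), m u ≤ c * t) :
    ∑ u ∈ S, m u * Real.log (R * (r u)⁻¹) ≤ c * R := by
  have h1 : ∑ u ∈ S, m u * Real.log (R * (r u)⁻¹) =
      ∫ t in (0 : ℝ)..R, ∑ u ∈ S, m u * (if r u < t then t⁻¹ else 0) := by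
    rw [intervalIntegral.integral_finsetSum fun u hu =>
      (step_int (hr u hu).1 (hr u hu).2).1.const_mul (m u)]
    refine Finset.sum_congr rfl fun u hu => ?_
    rw [intervalIntegral.integral_const_mul, (step_int (hr u hu).1 (hr u hu).2).2]
  have hint : IntervalIntegrable (fun t : ℝ => ∑ u ∈ S, m u * (if r u < t then t⁻¹ else 0))
      volume 0 R := by
    have := IntervalIntegrable.sum S (f := fun u (t : ℝ) => m u * (if r u < t then t⁻¹ else 0))
      fun u hu => (step_int (hr u hu).1 (hr u hu).2).1.const_mul (m u)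
    refine this.congr fun t _ => ?_
    simp only [Finset.sum_apply]
  rw [h1]
  calc ∫ t in (0 : ℝ)..R, ∑ u ∈ S, m u * (if r u < t then t⁻¹ else 0)
      ≤ ∫ _t in (0 : ℝ)..R, c := by
        refine intervalIntegral.integral_mono_on hR hint intervalIntegrable_const fun t ht => ?_
        have h2 : ∑ u ∈ S, m u * (if r u < t then t⁻¹ else 0) =
            (∑ u ∈ S.filter (fun u => r u < t), m u) * t⁻¹ := by
          rw [Finset.sum_mul, Finset.sum_filter]
          refine Finset.sum_congr rfl fun u _ => ?_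
          split_ifs
          · rfl
          · rw [mul_zero]
        rw [h2]
        rcases ht.1.eq_or_lt with h0 | h0
        · rw [← h0, inv_zero, mul_zero]
          exact hc
        · have h3 := mul_le_mul_of_nonneg_right (hcount t h0) (inv_nonneg.2 h0.le)
          rwa [mul_assoc, mul_inv_cancel₀ h0.ne', mul_one] at h3
    _ = c * R := by
        rw [intervalIntegral.integral_const, smul_eq_mul, sub_zero, mul_comm]

theorem divisor_real {L : ℂ → ℂ} (hL : Differentiable ℂ L) {U : Set ℂ} {u : ℂ} (hu : u ∈ U) :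
    ((MeromorphicOn.divisor L U u : ℤ) : ℝ) = (analyticOrderNatAt L u : ℝ) := by
  have hA : AnalyticOnNhd ℂ L U := fun z _ => hL.analyticAt z
  rw [MeromorphicOn.AnalyticOnNhd.divisor_apply hA hu]
  unfold analyticOrderNatAt
  cases h : analyticOrderAt L u with
  | top => simp
  | coe n => simp

theorem jensen_count (L : ℂ → ℂ) (hL : Differentiable ℂ L) (hne : ∃ z, L z ≠ 0) (c : ℝ) (hc : 0 ≤ c)
    (hcount : ∀ (t : ℝ) (Z : Finset ℂ), 0 < t → (∀ u ∈ Z, u ≠ 0 ∧ ‖u‖ ≤ t) →
      ∑ u ∈ Z, (analyticOrderNatAt L u : ℝ) ≤ c * t) :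
    ∃ C : ℝ, ∀ R : ℝ, 1 ≤ R →
      Real.circleAverage (fun w => Real.log ‖L w‖) 0 R ≤ c * R + C * (1 + Real.log R) := by
  classical
  have _ := hne
  refine ⟨max (analyticOrderNatAt L 0 : ℝ) (Real.log ‖meromorphicTrailingCoeffAt L 0‖), fun R hR => ?_⟩
  have hR0 : 0 < R := by linarith
  have hlog : 0 ≤ Real.log R := Real.log_nonneg hR
  have hA : AnalyticOnNhd ℂ L (Metric.closedBall 0 |R|) := fun z _ => hL.analyticAt z
  rw [MeromorphicOn.circleAverage_log_norm hR0.ne' hA.meromorphicOn]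
  set D := MeromorphicOn.divisor L (Metric.closedBall (0 : ℂ) |R|) with hD
  have hfin : (Function.support D).Finite := D.finiteSupport (isCompact_closedBall 0 |R|)
  have hz : (0 : ℂ) ∈ Metric.closedBall (0 : ℂ) |R| := by simp
  have h1 : ∑ᶠ u, (D u : ℝ) * Real.log (R * ‖(0 : ℂ) - u‖⁻¹) =
      ∑ u ∈ hfin.toFinset.erase 0, (analyticOrderNatAt L u : ℝ) * Real.log (R * ‖u‖⁻¹) := by
    rw [finsum_eq_sum_of_support_subset (s := hfin.toFinset)]
    · have h2 : ∀ u ∈ hfin.toFinset, (D u : ℝ) * Real.log (R * ‖(0 : ℂ) - u‖⁻¹) =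
          (analyticOrderNatAt L u : ℝ) * Real.log (R * ‖u‖⁻¹) := by
        intro u hu
        rw [Set.Finite.mem_toFinset] at hu
        rw [zero_sub, norm_neg, hD, divisor_real hL (D.supportWithinDomain hu)]
      rw [Finset.sum_congr rfl h2]
      refine (Finset.sum_erase _ ?_).symm
      simp
    · intro u hu
      rw [Function.mem_support] at hu
      rw [Set.Finite.coe_toFinset, Function.mem_support]
      intro h0
      apply hu
      rw [h0, Int.cast_zero, zero_mul]
  have h3 : ∑ u ∈ hfin.toFinset.erase 0, (analyticOrderNatAt L u : ℝ) * Real.log (R * ‖u‖⁻¹) ≤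
      c * R := by
    refine sum_log_le _ (fun u => (analyticOrderNatAt L u : ℝ)) (fun u => ‖u‖) R c hR0.le hc ?_ ?_
    · intro u hu
      rw [Finset.mem_erase, Set.Finite.mem_toFinset] at hu
      refine ⟨norm_pos_iff.2 hu.1, ?_⟩
      have h4 := D.supportWithinDomain hu.2
      rw [Metric.mem_closedBall, dist_zero_right, abs_of_pos hR0] at h4
      exact h4
    · intro t ht
      refine hcount t _ ht fun u hu => ?_
      rw [Finset.mem_filter, Finset.mem_erase] at hu
      exact ⟨hu.1.1, hu.2.le⟩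
  rw [h1]
  have h5 : (D 0 : ℝ) = (analyticOrderNatAt L 0 : ℝ) := divisor_real hL hz
  rw [h5]
  have h6 := mul_le_mul_of_nonneg_right (le_max_left (analyticOrderNatAt L 0 : ℝ)
    (Real.log ‖meromorphicTrailingCoeffAt L 0‖)) hlog
  have h7 := le_max_right (analyticOrderNatAt L 0 : ℝ) (Real.log ‖meromorphicTrailingCoeffAt L 0‖)
  linarith

end Pool.Agent.Helper16.OM
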