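import Mathlib

/-!
# OM, L6: lower bound for a circle average
-/

set_option autoImplicit false

open MeasureTheory Complex Real

namespace Pool.Agent.Helper16.OM

theorem circle_re (R θ : ℝ) : (circleMap 0 R θ).re = R * Real.cos θ := by
  rw [circleMap_zero, Complex.mul_re, Complex.ofReal_re, Complex.ofReal_im, zero_mul, sub_zero,
    Complex.exp_ofReal_mul_I_re]

theorem re_log {R : ℝ} (hR : 0 < R) {w : ℂ} (hw : ‖w‖ = R) (h0 : w.re ≠ 0) :
    Real.log ‖w - R * I‖ + Real.log ‖w - -(R * I)‖ = Real.log (2 * R) + Real.log |w.re| := by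
  have h1 : ‖w - R * I‖ * ‖w - -(R * I)‖ = 2 * R * |w.re| := by
    rw [← norm_mul]
    have h2 : (w - R * I) * (w - -(R * I)) = w * (((2 * w.re : ℝ) : ℂ)) := by
      have h3 : ((R : ℂ)) ^ 2 = w * (starRingEnd ℂ) w := by
        rw [Complex.mul_conj, Complex.normSq_eq_norm_sq, hw]
        push_cast
        ring
      have h4 : w + (starRingEnd ℂ) w = ((2 * w.re : ℝ) : ℂ) := Complex.add_conj w
      have h5 : (I : ℂ) ^ 2 = -1 := Complex.I_sq
      calc (w - R * I) * (w - -(R * I)) = w ^ 2 - (R : ℂ) ^ 2 * I ^ 2 := by ring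
        _ = w * (w + (starRingEnd ℂ) w) := by rw [h5, h3]; ring
        _ = _ := by rw [h4]
    rw [h2, norm_mul, hw, Complex.norm_real, Real.norm_eq_abs, abs_mul, abs_of_pos (by norm_num : (0:ℝ) < 2)]
    ring
  have h6 : (0 : ℝ) < 2 * R * |w.re| := by
    have := abs_pos.2 h0
    positivity
  have h7 : ‖w - R * I‖ ≠ 0 := fun h => by
    rw [h, zero_mul] at h1
    exact absurd h1.symm h6.ne'
  have h8 : ‖w - -(R * I)‖ ≠ 0 := fun h => by
    rw [h, mul_zero] at h1
    exact absurd h1.symm h6.ne'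
  rw [← Real.log_mul h7 h8, h1, Real.log_mul (by positivity) (abs_pos.2 h0).ne']

theorem avg_log {R : ℝ} (hR : 0 < R) (s : ℂ) (hs : ‖s‖ = R) :
    ∫ θ in (0 : ℝ)..2 * π, Real.log ‖circleMap 0 R θ - s‖ = 2 * π * Real.log R := by
  have h1 : Real.circleAverage (Real.log ‖· - s‖) 0 R = Real.log R := by
    apply circleAverage_log_norm_sub_const_of_mem_closedBall
    rw [Metric.mem_closedBall, dist_zero_right, hs, abs_of_pos hR]
  rw [Real.circleAverage_def, smul_eq_mul] at h1
  have hpi : (0 : ℝ) < 2 * π := by positivity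
  rw [inv_mul_eq_iff_eq_mul₀ hpi.ne'] at h1
  exact h1

theorem int_log (R : ℝ) (s : ℂ) :
    IntervalIntegrable (fun θ => Real.log ‖circleMap 0 R θ - s‖) volume 0 (2 * π) :=
  circleIntegrable_log_norm_sub_const (c := 0) (a := s) R

theorem circle_lower (R : ℝ) (hR : 1 ≤ R) (f : ℂ → ℝ) (hf : CircleIntegrable f 0 R) (A B : ℝ)
    (hB : 0 ≤ B) (h : ∀ w : ℂ, ‖w‖ = R → w.re ≠ 0 →
      w.re ^ 2 / R * Real.log R - A * R - B * R * (Real.log R - Real.log |w.re|) ≤ f w) :
    R / 2 * Real.log R - A * R - B * R * Real.log 2 ≤ Real.circleAverage f 0 R := by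
  have hR0 : 0 < R := by linarith
  have hpi : (0 : ℝ) < 2 * π := by positivity
  set s : ℂ := R * I with hs
  have hsn : ‖s‖ = R := by
    rw [hs, norm_mul, Complex.norm_I, mul_one, Complex.norm_real, Real.norm_eq_abs, abs_of_pos hR0]
  set u : ℝ → ℝ := fun θ => R * Real.log R * Real.cos θ ^ 2 + (-(A * R) - B * R * (Real.log R +
    Real.log (2 * R))) + B * R * (Real.log ‖circleMap 0 R θ - s‖ + Real.log ‖circleMap 0 R θ - -s‖)
    with hu
  have i1 : IntervalIntegrable (fun θ : ℝ => R * Real.log R * Real.cos θ ^ 2) volume 0 (2 * π) :=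
    (by fun_prop : Continuous fun θ : ℝ => R * Real.log R * Real.cos θ ^ 2).intervalIntegrable _ _
  have i2 : IntervalIntegrable (fun _ : ℝ => (-(A * R) - B * R * (Real.log R +
      Real.log (2 * R)))) volume 0 (2 * π) := intervalIntegrable_const
  have i3 : IntervalIntegrable (fun θ : ℝ => B * R * (Real.log ‖circleMap 0 R θ - s‖ +
      Real.log ‖circleMap 0 R θ - -s‖)) volume 0 (2 * π) :=
    ((int_log R s).add (int_log R (-s))).const_mul _
  have hui : IntervalIntegrable u volume 0 (2 * π) := (i1.add i2).add i3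
  have hval : ∫ θ in (0 : ℝ)..2 * π, u θ =
      2 * π * (R / 2 * Real.log R - A * R - B * R * Real.log 2) := by
    have e1 : ∫ θ in (0 : ℝ)..2 * π, u θ = (∫ θ in (0 : ℝ)..2 * π, R * Real.log R * Real.cos θ ^ 2) +
        (∫ _θ in (0 : ℝ)..2 * π, (-(A * R) - B * R * (Real.log R + Real.log (2 * R)))) +
        ∫ θ in (0 : ℝ)..2 * π, B * R * (Real.log ‖circleMap 0 R θ - s‖ +
          Real.log ‖circleMap 0 R θ - -s‖) := by
      rw [← intervalIntegral.integral_add i1 i2, ← intervalIntegral.integral_add (i1.add i2) i3]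
    have e2 : ∫ θ in (0 : ℝ)..2 * π, R * Real.log R * Real.cos θ ^ 2 = R * Real.log R * π := by
      rw [intervalIntegral.integral_const_mul, integral_cos_sq]
      simp only [Real.cos_two_pi, Real.sin_two_pi, Real.cos_zero, Real.sin_zero]
      ring
    have e3 : ∫ _θ in (0 : ℝ)..2 * π, (-(A * R) - B * R * (Real.log R + Real.log (2 * R))) =
        2 * π * (-(A * R) - B * R * (Real.log R + Real.log (2 * R))) := by
      rw [intervalIntegral.integral_const, smul_eq_mul, sub_zero]
    have e4 : ∫ θ in (0 : ℝ)..2 * π, B * R * (Real.log ‖circleMap 0 R θ - s‖ +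
          Real.log ‖circleMap 0 R θ - -s‖) = B * R * (2 * π * Real.log R + 2 * π * Real.log R) := by
      rw [intervalIntegral.integral_const_mul,
        intervalIntegral.integral_add (int_log R s) (int_log R (-s)),
        avg_log hR0 s hsn, avg_log hR0 (-s) (by rw [norm_neg, hsn])]
    rw [e1, e2, e3, e4, Real.log_mul (by norm_num) hR0.ne']
    ring
  have hae : ∀ᵐ θ : ℝ, Real.cos θ ≠ 0 := by
    have hc : {θ : ℝ | Real.cos θ = 0}.Countable := by
      refine (Set.countable_range fun k : ℤ => (2 * (k : ℝ) + 1) * π / 2).mono ?_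
      intro θ hθ
      obtain ⟨k, hk⟩ := Real.cos_eq_zero_iff.1 hθ
      exact ⟨k, hk.symm⟩
    exact hc.ae_notMem volume
  have hle : ∫ θ in (0 : ℝ)..2 * π, u θ ≤ ∫ θ in (0 : ℝ)..2 * π, f (circleMap 0 R θ) := by
    refine intervalIntegral.integral_mono_ae hpi.le hui hf ?_
    filter_upwards [hae] with θ hθ
    have hw : ‖circleMap 0 R θ‖ = R := by
      rw [norm_circleMap_zero, abs_of_pos hR0]
    have hre : (circleMap 0 R θ).re ≠ 0 := by
      rw [circle_re]
      exact mul_ne_zero hR0.ne' hθ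
    have h1 := h _ hw hre
    have h2 := re_log hR0 hw hre
    have h3 : (circleMap 0 R θ).re ^ 2 / R = R * Real.cos θ ^ 2 := by
      rw [circle_re]
      field_simp
    rw [h3] at h1
    refine le_trans (le_of_eq ?_) h1
    simp only [hu]
    rw [hs, h2]
    ring
  rw [Real.circleAverage_def, smul_eq_mul]
  rw [hval] at hle
  rw [inv_mul_eq_div, le_div_iff₀ hpi]
  linarith

end Pool.Agent.Helper16.OM
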